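import Mathlib

namespace Pool.Agent.Results.MP_496e47_co.Full

/-- Standard Young tableaux on a set `S` of cells `(row, column)`: bijective fillings by
`1, …, |S|` increasing along rows and down columns (set to `0` outside `S`). -/
def SYT (S : Finset (ℕ × ℕ)) : Type :=
  {T : ℕ × ℕ → ℕ // (∀ c, c ∉ S → T c = 0) ∧ Set.BijOn T S (Set.Icc 1 S.card) ∧
    (∀ c ∈ S, ∀ d ∈ S, c.1 = d.1 → c.2 < d.2 → T c < T d) ∧
    (∀ c ∈ S, ∀ d ∈ S, c.2 = d.2 → c.1 < d.1 → T c < T d)}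

/-- the descent set: `i ∈ [n-1]` with `i + 1` in a row strictly below the row of `i` -/
def Des {S : Finset (ℕ × ℕ)} (T : SYT S) : Finset ℕ :=
  (Finset.Icc 1 (S.card - 1)).filter fun i =>
    ∃ c ∈ S, ∃ d ∈ S, T.1 c = i ∧ T.1 d = i + 1 ∧ c.1 < d.1

/-- cyclic descent maps -/
def IsCDes (S : Finset (ℕ × ℕ)) (cD : SYT S → Finset ℕ) : Prop :=
  ∃ φ : SYT S → SYT S, Function.Bijective φ ∧ ∀ T,
    cD T ⊆ Finset.Icc 1 S.card ∧
    cD T ∩ Finset.Icc 1 (S.card - 1) = Des T ∧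
    cD (φ T) = (cD T).image (fun i => i % S.card + 1) ∧
    cD T ≠ ∅ ∧ cD T ≠ Finset.Icc 1 S.card

/-- the set `D(S)` of descent numbers -/
def DNum (S : Finset (ℕ × ℕ)) : Set ℤ := Set.range fun T : SYT S => ((Des T).card : ℤ)

def S0 : Finset (ℕ × ℕ) := {(0, 0), (0, 1), (0, 2), (1, 0), (1, 1), (1, 2)}

theorem S0_card : S0.card = 6 := by decide

def fill (a b c d e f : ℕ) (x : ℕ × ℕ) : ℕ :=
  if x = (0, 0) then a else if x = (0, 1) then b else if x = (0, 2) then c else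
  if x = (1, 0) then d else if x = (1, 1) then e else if x = (1, 2) then f else 0

def raw : Fin 5 → ℕ × ℕ → ℕ
  | 0 => fill 1 2 3 4 5 6
  | 1 => fill 1 2 4 3 5 6
  | 2 => fill 1 2 5 3 4 6
  | 3 => fill 1 3 4 2 5 6
  | 4 => fill 1 3 5 2 4 6

theorem fill_out (a b c d e f : ℕ) (x : ℕ × ℕ) (hx : x ∉ S0) : fill a b c d e f x = 0 := by
  simp only [S0, Finset.mem_insert, Finset.mem_singleton, not_or] at hx
  simp [fill, hx]

theorem raw_out (i : Fin 5) (x : ℕ × ℕ) (hx : x ∉ S0) : raw i x = 0 := by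
  fin_cases i <;> exact fill_out _ _ _ _ _ _ x hx

theorem raw_bij (i : Fin 5) : Set.BijOn (raw i) S0 (Set.Icc 1 S0.card) := by
  have h1 : ∀ i : Fin 5, ∀ c ∈ S0, raw i c ∈ Finset.Icc 1 6 := by decide
  have h2 : ∀ i : Fin 5, ∀ c ∈ S0, ∀ d ∈ S0, raw i c = raw i d → c = d := by decide
  have h3 : ∀ i : Fin 5, ∀ m ∈ Finset.Icc 1 6, ∃ c ∈ S0, raw i c = m := by decide
  rw [S0_card]
  refine ⟨fun c hc => by simpa using h1 i c hc, fun c hc d hd h => h2 i c hc d hd h, ?_⟩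
  intro m hm
  obtain ⟨c, hc, e⟩ := h3 i m (by simpa using hm)
  exact ⟨c, hc, e⟩

def tab (i : Fin 5) : SYT S0 :=
  ⟨raw i, raw_out i, raw_bij i, by revert i; decide, by revert i; decide⟩

def desL : Fin 5 → Finset ℕ
  | 0 => {3}
  | 1 => {2, 4}
  | 2 => {2, 5}
  | 3 => {1, 4}
  | 4 => {1, 3, 5}

def cdL : Fin 5 → Finset ℕ
  | 0 => {3, 6}
  | 1 => {2, 4, 6}
  | 2 => {2, 5}
  | 3 => {1, 4}
  | 4 => {1, 3, 5}

def nxt : Fin 5 → Fin 5
  | 0 => 3
  | 1 => 4
  | 2 => 0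
  | 3 => 2
  | 4 => 1

theorem des_tab (i : Fin 5) : Des (tab i) = desL i := by
  have : ∀ i : Fin 5, ((Finset.Icc 1 5).filter fun m =>
    ∃ c ∈ S0, ∃ d ∈ S0, raw i c = m ∧ raw i d = m + 1 ∧ c.1 < d.1) = desL i := by decide
  rw [← this i]
  rfl

theorem tab_inj : Function.Injective tab := by
  intro i j h
  have h1 : desL i = desL j := by rw [← des_tab, ← des_tab, h]
  have h2 : ∀ i j : Fin 5, desL i = desL j → i = j := by decide
  exact h2 i j h1

theorem five (a b c d e f : ℕ) (r1 : a < b) (r2 : b < c) (r3 : d < e) (r4 : e < f) (c1 : a < d)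
    (c2 : b < e) (c3 : c < f) (m1 : 1 ≤ a) (m2 : f ≤ 6) (i1 : b ≠ d) (i2 : c ≠ d) (i3 : c ≠ e) :
    ∃ i, raw i = fill a b c d e f := by
  have ha : a = 1 := by omega
  have hf : f = 6 := by omega
  subst ha hf
  have hb : b ≤ 3 := by omega
  have hc : c ≤ 5 := by omega
  have he : e ≤ 5 := by omega
  interval_cases e <;> interval_cases d <;> interval_cases c <;> interval_cases b <;>
    first
    | omega
    | exact ⟨0, rfl⟩
    | exact ⟨1, rfl⟩
    | exact ⟨2, rfl⟩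
    | exact ⟨3, rfl⟩
    | exact ⟨4, rfl⟩

theorem tab_surj : Function.Surjective tab := by
  rintro ⟨T, h0, hb, hr, hc⟩
  have hT : T = fill (T (0, 0)) (T (0, 1)) (T (0, 2)) (T (1, 0)) (T (1, 1)) (T (1, 2)) := by
    funext x
    by_cases hx : x ∈ S0
    · simp only [S0, Finset.mem_insert, Finset.mem_singleton] at hx
      rcases hx with rfl | rfl | rfl | rfl | rfl | rfl <;> simp [fill]
    · rw [h0 x hx, fill_out _ _ _ _ _ _ x hx]
  have m : ∀ c ∈ S0, 1 ≤ T c ∧ T c ≤ 6 := fun c hc => by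
    have := hb.1 (Finset.mem_coe.2 hc)
    rw [S0_card] at this
    exact this
  have inj : ∀ c ∈ S0, ∀ d ∈ S0, c ≠ d → T c ≠ T d := fun c hc d hd hne h =>
    hne (hb.2.1 (Finset.mem_coe.2 hc) (Finset.mem_coe.2 hd) h)
  have r1 := hr (0, 0) (by decide) (0, 1) (by decide) rfl (by decide)
  have r2 := hr (0, 1) (by decide) (0, 2) (by decide) rfl (by decide)
  have r3 := hr (1, 0) (by decide) (1, 1) (by decide) rfl (by decide)
  have r4 := hr (1, 1) (by decide) (1, 2) (by decide) rfl (by decide)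
  have c1 := hc (0, 0) (by decide) (1, 0) (by decide) rfl (by decide)
  have c2 := hc (0, 1) (by decide) (1, 1) (by decide) rfl (by decide)
  have c3 := hc (0, 2) (by decide) (1, 2) (by decide) rfl (by decide)
  have m1 := m (0, 0) (by decide)
  have m2 := m (1, 2) (by decide)
  have i1 := inj (0, 1) (by decide) (1, 0) (by decide) (by decide)
  have i2 := inj (0, 2) (by decide) (1, 0) (by decide) (by decide)
  have i3 := inj (0, 2) (by decide) (1, 1) (by decide) (by decide)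
  have key : ∃ i, raw i = T := by
    obtain ⟨i, hi⟩ := five _ _ _ _ _ _ r1 r2 r3 r4 c1 c2 c3 m1.1 m2.2 i1 i2 i3
    exact ⟨i, hi.trans hT.symm⟩
  obtain ⟨i, hi⟩ := key
  exact ⟨i, Subtype.ext hi⟩

noncomputable def eqv : Fin 5 ≃ SYT S0 := Equiv.ofBijective tab ⟨tab_inj, tab_surj⟩

theorem two_cases (A D : Finset ℕ) (h1 : A ⊆ Finset.Icc 1 6) (h2 : A ∩ Finset.Icc 1 5 = D) :
    A = D ∨ A = insert 6 D := by
  subst h2
  by_cases h : 6 ∈ A
  · right
    ext x
    have := @h1 x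
    simp only [Finset.mem_insert, Finset.mem_inter, Finset.mem_Icc] at this ⊢
    constructor
    · intro hx
      have := this hx
      by_cases h6 : x = 6
      · exact Or.inl h6
      · exact Or.inr ⟨hx, by omega, by omega⟩
    · rintro (rfl | hx)
      · exact h
      · exact hx.1
  · left
    ext x
    have := @h1 x
    simp only [Finset.mem_inter, Finset.mem_Icc] at this ⊢
    constructor
    · intro hx
      have := this hx
      have h6 : x ≠ 6 := fun e => h (e ▸ hx)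
      exact ⟨hx, by omega, by omega⟩
    · exact fun hx => hx.1

theorem uniq : ∃! cD, IsCDes S0 cD := by
  refine ⟨fun T => cdL (eqv.symm T), ⟨fun T => eqv (nxt (eqv.symm T)), ?_, ?_⟩, ?_⟩
  · have hn : Function.Bijective nxt := by decide
    exact eqv.bijective.comp (hn.comp eqv.symm.bijective)
  · intro T
    obtain ⟨i, rfl⟩ := eqv.surjective T
    simp only [Equiv.symm_apply_apply, S0_card]
    have e : Des (eqv i) = desL i := des_tab i
    rw [e]
    have : ∀ i : Fin 5, cdL i ⊆ Finset.Icc 1 6 ∧ cdL i ∩ Finset.Icc 1 (6 - 1) = desL i ∧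
      cdL (nxt i) = (cdL i).image (fun m => m % 6 + 1) ∧ cdL i ≠ ∅ ∧
      cdL i ≠ Finset.Icc 1 6 := by decide
    exact this i
  · rintro cD ⟨φ, -, h⟩
    funext T
    obtain ⟨i, rfl⟩ := eqv.surjective T
    obtain ⟨j, hj⟩ := eqv.surjective (φ (eqv i))
    simp only [Equiv.symm_apply_apply]
    obtain ⟨a1, a2, a3, -⟩ := h (eqv i)
    obtain ⟨-, b2, -⟩ := h (eqv j)
    rw [S0_card] at a1 a2 a3 b2
    have e : ∀ i, Des (eqv i) = desL i := des_tab
    rw [e] at a2 b2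
    rw [hj, a3] at b2
    have key : ∀ i j : Fin 5,
        (((desL i).image fun m => m % 6 + 1) ∩ Finset.Icc 1 (6 - 1) = desL j → desL i = cdL i) ∧
        (((insert 6 (desL i)).image fun m => m % 6 + 1) ∩ Finset.Icc 1 (6 - 1) = desL j →
          insert 6 (desL i) = cdL i) := by decide
    rcases two_cases _ _ a1 a2 with h | h
    · rw [h] at b2 ⊢; exact (key i j).1 b2
    · rw [h] at b2 ⊢; exact (key i j).2 b2

def lam : YoungDiagram where
  cells := S0
  isLowerSet := by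
    rintro ⟨a, b⟩ ⟨c, d⟩ ⟨h1, h2⟩ h
    simp only [S0, Finset.coe_insert, Finset.coe_singleton, Set.mem_insert_iff,
      Set.mem_singleton_iff, Prod.mk.injEq] at h h1 h2 ⊢
    omega

theorem result : ¬ ∀ lam mu : YoungDiagram, mu ≤ lam →
    (∃! cD, IsCDes (lam.cells \ mu.cells) cD) →
    ∃ k : ℤ, DNum (lam.cells \ mu.cells) = {k - 1, k} := by
  intro h
  have e : lam.cells \ (⊥ : YoungDiagram).cells = S0 := by
    rw [YoungDiagram.cells_bot, Finset.sdiff_empty]; rfl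
  have h1 := h lam ⊥ bot_le
  rw [e] at h1
  obtain ⟨k, hk⟩ := h1 uniq
  have m1 : (1 : ℤ) ∈ DNum S0 := ⟨tab 0, by simp only [des_tab]; rfl⟩
  have m3 : (3 : ℤ) ∈ DNum S0 := ⟨tab 4, by simp only [des_tab]; rfl⟩
  rw [hk] at m1 m3
  simp only [Set.mem_insert_iff, Set.mem_singleton_iff] at m1 m3
  omega

end Pool.Agent.Results.MP_496e47_co.Full
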